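import Pool.Agent.R367.FS.Main

/-!
# Every fake subfield is a fake subfield with split extension

Negated form of Q1.  Let `K` be a fake subfield of a number field `F`, `G = Gal(Ω_K/ℚ)`, and let
`U` be the image in `G` of the absolute Galois group of `F`.  By Chebotarev's density theorem every
element of `U` fixes an embedding of `K`, while `U` has no common fixed embedding.  Put `n = |G|` and
`C = (ℤ/n)³`, realise the regular wreath product `C ≀ G` as the Galois group of a field `M ⊇ Ω_K`
(a split embedding problem with abelian kernel), and let `F'` be the fixed field of the group of all
`(f, u)` with `u ∈ U` and `f = 1` on `U`.  Counting fixed points shows that the cycles of every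
Frobenius element on the embeddings of `F'` can be distributed on the cycles on the embeddings of
`K`, so that `K` is a fake subfield of `F'`.
-/

set_option autoImplicit false

namespace Pool.Agent.Results.MP_d64882_nt.AlwaysSplit

open Pool.Agent.R367.FS

theorem result (K : IntermediateField ℚ (AlgebraicClosure ℚ)) [NumberField K]
    (h : ∃ (F : IntermediateField ℚ (AlgebraicClosure ℚ)) (_ : NumberField F), FakeSub F K) :
    ∃ (F : IntermediateField ℚ (AlgebraicClosure ℚ)) (_ : NumberField F),
      FakeSub F K ∧ SplitExt F K := by
  obtain ⟨F, hF, h⟩ := h
  exact main K F h

end Pool.Agent.Results.MP_d64882_nt.AlwaysSplit
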